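import Pool.Agent.H62.CR.Main

/-!
# Compaction and retraction are not polynomially equivalent, unless `P = NP`

There is a bipartite graph `H` (with 23 vertices and 56 edges) such that compaction to `H` can be
decided in polynomial time, while retraction to `H` is `NP`-complete (under polynomial-time many-one
reductions). Consequently the statement that for every fixed graph `H` retraction to `H` and
compaction to `H` are polynomially equivalent (polynomial-time Turing reductions, by oracle Turing
machines) is equivalent to `P = NP`.

The graph `H` is `H23` in `Pool.Agent.H62.CR.Graph`, the algorithm for compaction is `decW` in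
`Pool.Agent.H62.CR.Algo`.
-/

namespace Pool.Agent.Results.MP_9c085f_lc.CompactionEasyRetractionHard

open Pool.Agent.PPS Pool.Agent.H64.Cook Pool.Agent.H62.CR

/-- There is a bipartite graph `H` such that COMP-`H` is in `P` and RET-`H` is `NP`-complete; and
RET-`H` and COMP-`H` are polynomially equivalent for all graphs `H` if and only if `P = NP`. -/
theorem result :
    (∃ (k : ℕ) (H : LG (Fin k)),
      (∃ col : Fin k → Bool, ∀ i j, H.adj i j → col i ≠ col j) ∧
      COMP H ∈ P ∧
      RET H ∈ NP ∧
      ∀ L ∈ NP, ∃ φ ∈ FP, ∀ x, x ∈ L ↔ φ x ∈ RET H) ∧
    ((∀ (k : ℕ) (H : LG (Fin k)), PolyEquiv (RET H) (COMP H)) ↔ P = NP) :=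
  ⟨main1, main2⟩

end Pool.Agent.Results.MP_9c085f_lc.CompactionEasyRetractionHard
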